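import Pool.Agent.V1185.McKay.Med

open MeasureTheory Set Real Filter Topology ProbabilityTheory
open scoped ENNReal

namespace Pool.Agent.Results.MP_aeb357_pr.MedianMono

open Pool.Agent.V1185.McKay

/-- The median `inf {x : P(X ≤ x) ≥ 1/2}` of a real random variable. -/
noncomputable def median {Ω : Type*} [MeasurableSpace Ω] (P : Measure Ω) (X : Ω → ℝ) : ℝ :=
  sInf {x : ℝ | (1 : ℝ) / 2 ≤ P.real {ω | X ω ≤ x}}

lemma cdf_neg {r δ t : ℝ} (hr : 0 < r) (h0 : 0 ≤ δ) (h1 : δ < 1) (ht : t < 0) :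
    ((gammaMeasure r 1).prod (gammaMeasure r 1)) {p | (1 - δ) * p.1 + (1 + δ) * p.2 ≤ t} = 0 := by
  refine measure_mono_null (t := {p : ℝ × ℝ | (1 - δ) * p.1 + (1 + δ) * p.2 ≤ 0}) ?_ ?_
  · intro p hp
    exact le_trans (show _ ≤ t from hp) ht.le
  · rw [law_eq hr h0 h1 le_rfl]
    have : kc r * FF r δ 0 = 0 := QQ_zero
    rw [this, ENNReal.ofReal_zero]

lemma median_eq {Ω : Type*} [MeasurableSpace Ω] (P : Measure Ω) [IsProbabilityMeasure P]
    {r φ δ t : ℝ} (hr : 0 < r) (hφ : 0 < φ) (h0 : 0 ≤ δ) (h1 : δ < 1) (X₁ X₂ : Ω → ℝ)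
    (h₁ : HasLaw X₁ (gammaMeasure r 1) P) (h₂ : HasLaw X₂ (gammaMeasure r 1) P)
    (hind : X₁ ⟂ᵢ[P] X₂) (ht : 0 < t) (hQ : QQ r δ t = 1 / 2) :
    median P (fun ω => φ * (1 - δ) * X₁ ω + φ * (1 + δ) * X₂ ω) = φ * t := by
  have hδ : δ ∈ Ioo (-1:ℝ) 1 := ⟨by linarith, h1⟩
  -- the distribution function
  have hjoint : P.map (fun ω => (X₁ ω, X₂ ω)) = (gammaMeasure r 1).prod (gammaMeasure r 1) := by
    rw [(indepFun_iff_map_prod_eq_prod_map_map h₁.aemeasurable h₂.aemeasurable).1 hind,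
      h₁.map_eq, h₂.map_eq]
  have hcdf : ∀ x : ℝ, P {ω | φ * (1 - δ) * X₁ ω + φ * (1 + δ) * X₂ ω ≤ x}
      = ((gammaMeasure r 1).prod (gammaMeasure r 1))
        {p | (1 - δ) * p.1 + (1 + δ) * p.2 ≤ x / φ} := by
    intro x
    have hS : MeasurableSet {p : ℝ × ℝ | (1 - δ) * p.1 + (1 + δ) * p.2 ≤ x / φ} :=
      measurableSet_le (by fun_prop) measurable_const
    rw [← hjoint, Measure.map_apply_of_aemeasurable
      (h₁.aemeasurable.prodMk h₂.aemeasurable) hS]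
    congr 1
    ext ω
    simp only [Set.mem_preimage, Set.mem_ofPred_eq]
    rw [le_div_iff₀ hφ]
    constructor
    · intro h; linarith
    · intro h; linarith
  have hreal : ∀ x : ℝ, 0 ≤ x → P.real {ω | φ * (1 - δ) * X₁ ω + φ * (1 + δ) * X₂ ω ≤ x}
      = QQ r δ (x / φ) := by
    intro x hx
    have hx' : 0 ≤ x / φ := by positivity
    rw [measureReal_def, hcdf x, law_eq hr h0 h1 hx']
    apply ENNReal.toReal_ofReal
    have := (strictMonoOn_QQ hr hδ).monotoneOn (mem_Ici.2 le_rfl : (0:ℝ) ∈ Ici (0:ℝ))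
      (mem_Ici.2 hx' : x / φ ∈ Ici (0:ℝ)) hx'
    simp only [QQ_zero] at this
    exact this
  have hneg : ∀ x : ℝ, x < 0 → P.real {ω | φ * (1 - δ) * X₁ ω + φ * (1 + δ) * X₂ ω ≤ x} = 0 := by
    intro x hx
    have hx' : x / φ < 0 := div_neg_of_neg_of_pos hx hφ
    rw [measureReal_def, hcdf x, cdf_neg hr h0 h1 hx']
    simp
  have hset : {x : ℝ | (1 : ℝ) / 2 ≤ P.real {ω | φ * (1 - δ) * X₁ ω + φ * (1 + δ) * X₂ ω ≤ x}}
      = Ici (φ * t) := by
    ext x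
    simp only [Set.mem_ofPred_eq, mem_Ici]
    rcases lt_or_ge x 0 with hx | hx
    · rw [hneg x hx]
      have : 0 < φ * t := by positivity
      constructor
      · intro h; norm_num at h
      · intro h; linarith
    · rw [hreal x hx, ← hQ]
      have hx' : 0 ≤ x / φ := by positivity
      have h3 := (strictMonoOn_QQ hr hδ).le_iff_le (show t ∈ Ici 0 from ht.le)
        (show x / φ ∈ Ici 0 from hx')
      rw [h3, le_div_iff₀ hφ, mul_comm]
  unfold median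
  rw [hset, csInf_Ici]

/-- For `m > -1/2`, `φ > 0` and independent `X₁, X₂` with law `Γ(m+1/2, 1)` the median of
`φ(1-1/c) X₁ + φ(1+1/c) X₂` is a strictly increasing function of `c ∈ (1,∞)`. -/
theorem result {Ω : Type*} [MeasurableSpace Ω] (P : Measure Ω) [IsProbabilityMeasure P]
    (m φ : ℝ) (hm : -1 / 2 < m) (hφ : 0 < φ) (X₁ X₂ : Ω → ℝ)
    (h₁ : HasLaw X₁ (gammaMeasure (m + 1 / 2) 1) P)
    (h₂ : HasLaw X₂ (gammaMeasure (m + 1 / 2) 1) P) (hind : X₁ ⟂ᵢ[P] X₂) :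
    StrictMonoOn
      (fun c : ℝ => median P (fun ω => φ * (1 - 1 / c) * X₁ ω + φ * (1 + 1 / c) * X₂ ω))
      (Ioi 1) := by
  intro a ha b hb hab
  have hr : 0 < m + 1 / 2 := by linarith
  have ha1 : (1:ℝ) < a := ha
  have hb1 : (1:ℝ) < b := hb
  have hδa : 0 < 1 / a := by positivity
  have hδb : 0 < 1 / b := by positivity
  have hδa1 : 1 / a < 1 := by rw [div_lt_one (by linarith)]; exact ha1
  have hδb1 : 1 / b < 1 := by rw [div_lt_one (by linarith)]; exact hb1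
  have hlt : 1 / b < 1 / a := one_div_lt_one_div_of_lt (by linarith) hab
  obtain ⟨ta, ta0, ta1, hta⟩ := exists_half hr hδa.le hδa1
  obtain ⟨tb, tb0, tb1, htb⟩ := exists_half hr hδb.le hδb1
  simp only
  rw [median_eq P hr hφ hδa.le hδa1 X₁ X₂ h₁ h₂ hind ta0 hta,
    median_eq P hr hφ hδb.le hδb1 X₁ X₂ h₁ h₂ hind tb0 htb]
  apply mul_lt_mul_of_pos_left _ hφ
  -- compare the distribution functions at `ta`
  have h3 : QQ (m + 1 / 2) (1 / b) ta < QQ (m + 1 / 2) (1 / a) ta := by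
    unfold QQ
    apply mul_lt_mul_of_pos_left _ (kc_pos hr)
    exact strictMonoOn_FF hr ta0 ta1 ⟨hδb.le, hδb1⟩ ⟨hδa.le, hδa1⟩ hlt
  have h5 : QQ (m + 1 / 2) (1 / b) ta < QQ (m + 1 / 2) (1 / b) tb := by
    rw [htb]
    rw [hta] at h3
    exact h3
  have h4 := (strictMonoOn_QQ hr (δ := 1 / b) ⟨by linarith, hδb1⟩).lt_iff_lt
    (show ta ∈ Ici 0 from ta0.le) (show tb ∈ Ici 0 from tb0.le)
  exact h4.1 h5

end Pool.Agent.Results.MP_aeb357_pr.MedianMono
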